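import Pool.Agent.K1H95.EO.Stm

/-!
# Neighbourhoods of points moved by `z` are small
-/

set_option autoImplicit false

open Cardinal

namespace Pool.Agent.K1H96.EO

open Pool.Agent.K1H95.EO

theorem t_NB : S_NB := by
  intro κ V X z hκ hH S hS hSκ w hw
  classical
  -- the stabilizer
  let St : Subgroup (X ≃g X) :=
    { carrier := {g | g w = w}
      mul_mem' := by
        intro a b ha hb
        show a (b w) = w
        rw [show b w = w from hb, show a w = w from ha]
      one_mem' := rfl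
      inv_mem' := by
        intro a ha
        show a⁻¹ w = w
        have : a⁻¹ (a w) = w := a.symm_apply_apply w
        rwa [show a w = w from ha] at this }
  have hSt : #St ≤ κ := hH St (fun h => hw h)
  have h1 : ∀ a : V, #{φ : X ≃g X | φ a = w} ≤ κ := by
    intro a
    by_cases hne : ∃ φ0 : X ≃g X, φ0 a = w
    · obtain ⟨φ0, h0⟩ := hne
      have h0' : φ0⁻¹ w = a := by
        rw [← h0]; exact φ0.symm_apply_apply a
      let f : {φ : X ≃g X | φ a = w} → St := fun φ => ⟨φ.1 * φ0⁻¹, by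
        show φ.1 (φ0⁻¹ w) = w
        rw [h0']; exact φ.2⟩
      have hf : Function.Injective f := by
        intro φ ψ h
        have h2 : φ.1 * φ0⁻¹ = ψ.1 * φ0⁻¹ := congrArg Subtype.val h
        exact Subtype.ext (mul_right_cancel h2)
      exact (Cardinal.mk_le_of_injective hf).trans hSt
    · have : IsEmpty {φ : X ≃g X | φ a = w} := ⟨fun φ => hne ⟨φ.1, φ.2⟩⟩
      rw [Cardinal.mk_eq_zero]
      exact zero_le
  -- the oriented representatives
  let P : Set (V × V) := {p | s(p.1, p.2) ∈ S}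
  have hP : #P ≤ κ := by
    let G : S × Bool → V × V := fun q => if q.2 then (Quot.out q.1.1) else (Quot.out q.1.1).swap
    have hG : P ⊆ Set.range G := by
      intro p hp
      have e1 : s((Quot.out (s(p.1, p.2))).1, (Quot.out (s(p.1, p.2))).2) = s(p.1, p.2) :=
        Quot.out_eq (s(p.1, p.2))
      rcases Sym2.eq_iff.mp e1 with ⟨h2, h3⟩ | ⟨h2, h3⟩
      · exact ⟨(⟨s(p.1, p.2), hp⟩, true), Prod.ext h2 h3⟩
      · exact ⟨(⟨s(p.1, p.2), hp⟩, false), Prod.ext h3 h2⟩
    calc #P ≤ #(Set.range G) := Cardinal.mk_le_mk_of_subset hG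
      _ ≤ #(S × Bool) := Cardinal.mk_range_le
      _ = #S * 2 := by simp
      _ ≤ κ * κ := by
          refine mul_le_mul' hSκ ?_
          exact (Cardinal.natCast_le_aleph0 (n := 2)).trans hκ
      _ = κ := Cardinal.mul_eq_self hκ
  let F : (Σ p : P, {φ : X ≃g X | φ p.1.1 = w}) → V := fun q => q.2.1 q.1.1.2
  have hF : {u : V | X.Adj w u} ⊆ Set.range F := by
    intro u hu
    have he : s(w, u) ∈ X.edgeSet := hu
    obtain ⟨s, hs, φ, hφ⟩ := hS _ he
    induction s using Sym2.ind with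
    | _ a b =>
      rw [Sym2.map_mk] at hφ
      rcases Sym2.eq_iff.mp hφ with ⟨h2, h3⟩ | ⟨h2, h3⟩
      · exact ⟨⟨⟨(a, b), hs⟩, ⟨φ, h2⟩⟩, h3⟩
      · refine ⟨⟨⟨(b, a), ?_⟩, ⟨φ, h3⟩⟩, h2⟩
        show s(b, a) ∈ S
        rwa [Sym2.eq_swap]
  calc #{u : V | X.Adj w u} ≤ #(Set.range F) := Cardinal.mk_le_mk_of_subset hF
    _ ≤ #(Σ p : P, {φ : X ≃g X | φ p.1.1 = w}) := Cardinal.mk_range_le
    _ = Cardinal.sum fun p : P => #{φ : X ≃g X | φ p.1.1 = w} := Cardinal.mk_sigma _
    _ ≤ Cardinal.sum fun _ : P => κ := Cardinal.sum_le_sum _ _ fun p => h1 _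
    _ = #P * κ := by simp
    _ ≤ κ * κ := mul_le_mul' hP le_rfl
    _ = κ := Cardinal.mul_eq_self hκ

end Pool.Agent.K1H96.EO
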